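import Pool.Agent.Helper96.AW.GoalsA

set_option autoImplicit false

namespace Pool.Agent.Helper24.AW.TF

open Finset Pool.Agent.Helper26.AF Pool.Agent.Helper26.AL Pool.Agent.Helper96.AW

theorem XL_nonneg (u : ℝ) (L m : ℕ) (hu : 0 ≤ u) : 0 ≤ XL u L m := by
  unfold XL
  apply Finset.sum_nonneg
  intro G _
  split_ifs
  · exact pow_nonneg hu _
  · exact le_refl _

theorem XL_big (u : ℝ) (n L : ℕ) (h : n < L) : XL u L n = XL u (n + 1) n := by
  unfold XL
  apply Finset.sum_congr rfl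
  intro G _
  have key : (∀ Q : Finset (Fin n), IsComp G Q → eIn G Q ≤ #Q ∧ (eIn G Q < #Q → #Q < L)) ↔
      (∀ Q : Finset (Fin n), IsComp G Q → eIn G Q ≤ #Q ∧ (eIn G Q < #Q → #Q < n + 1)) := by
    constructor
    · intro H Q hQ
      refine ⟨(H Q hQ).1, fun _ => ?_⟩
      have := Finset.card_le_univ Q
      rw [Fintype.card_fin] at this
      omega
    · intro H Q hQ
      refine ⟨(H Q hQ).1, fun _ => ?_⟩
      have := Finset.card_le_univ Q
      rw [Fintype.card_fin] at this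
      omega
  by_cases h1 : ∀ Q : Finset (Fin n), IsComp G Q → eIn G Q ≤ #Q ∧ (eIn G Q < #Q → #Q < L)
  · rw [if_pos h1, if_pos (key.mp h1)]
  · rw [if_neg h1, if_neg (fun h => h1 (key.mpr h))]

/-- the coefficient -/
noncomputable def cc (u z : ℝ) (k : ℕ) : ℝ := (trk k : ℝ) * u ^ (k - 1) * z ^ k / (k.factorial : ℝ)

theorem cc_nonneg (u z : ℝ) (k : ℕ) (hu : 0 ≤ u) (hz : 0 ≤ z) : 0 ≤ cc u z k := by
  unfold cc; positivity

theorem expo_le (u z : ℝ) (L n B : ℕ) (hu : 0 ≤ u) (hz : 0 ≤ z) (hL : L ≤ B) :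
    ∑ k ∈ Icc 1 n, wk u L k * z ^ k / (k.factorial : ℝ) ≤
      ∑ k ∈ Ico 1 B, cc u z k + ∑ k ∈ Icc 1 n, (Nc k 0 : ℝ) * u ^ k * z ^ k / (k.factorial : ℝ) := by
  have h1 : ∀ k ∈ Icc 1 n, wk u L k * z ^ k / (k.factorial : ℝ) =
      (if k < L then cc u z k else 0) + (Nc k 0 : ℝ) * u ^ k * z ^ k / (k.factorial : ℝ) := by
    intro k _
    unfold wk cc
    split_ifs
    · ring
    · ring
  rw [Finset.sum_congr rfl h1, Finset.sum_add_distrib]
  have h2 : ∑ k ∈ Icc 1 n, (if k < L then cc u z k else 0) ≤ ∑ k ∈ Ico 1 B, cc u z k := by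
    rw [← Finset.sum_filter]
    apply Finset.sum_le_sum_of_subset_of_nonneg
    · intro k hk
      simp only [Finset.mem_filter, Finset.mem_Icc, Finset.mem_Ico] at hk ⊢
      omega
    · intro k _ _
      exact cc_nonneg u z k hu hz
  linarith

theorem step (hTD : ∀ (u z : ℝ) (L n : ℕ), 0 ≤ u → 0 ≤ z →
    ∑ m ∈ range (n + 1), XL u L m * z ^ m / (m.factorial : ℝ)
      ≤ Real.exp (∑ k ∈ Icc 1 n, wk u L k * z ^ k / (k.factorial : ℝ))) (hTE : S_TE)
    (u z : ℝ) (n i : ℕ) (M : ℝ) (hu : 0 < u) (hz : 0 < z)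
    (hM : ∀ k ∈ Ico (2 ^ i) (2 ^ (i + 1)), cc u z k ≤ M) :
    XL u (2 ^ (i + 1)) n * z ^ n / (n.factorial : ℝ) ≤
      XL u (2 ^ i) n * z ^ n / (n.factorial : ℝ) + M * Real.exp (∑ k ∈ Ico 1 (2 ^ (i + 1)), cc u z k +
        ∑ k ∈ Icc 1 n, (Nc k 0 : ℝ) * u ^ k * z ^ k / (k.factorial : ℝ)) := by
  have hK : 1 ≤ 2 ^ i := Nat.one_le_two_pow
  have hpow : 2 ^ (i + 1) = 2 * 2 ^ i := by rw [pow_succ]; ring
  have hM0 : 0 ≤ M := by
    refine le_trans (cc_nonneg u z (2 ^ i) hu.le hz.le) (hM _ ?_)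
    simp only [Finset.mem_Ico]
    constructor
    · exact le_refl _
    · omega
  have h1 := hTE u (2 ^ i) n hu.le hK
  rw [← hpow] at h1
  set L := 2 ^ (i + 1) with hL
  have hzn : 0 ≤ z ^ n / (n.factorial : ℝ) := by positivity
  have h2 := mul_le_mul_of_nonneg_right h1 hzn
  rw [add_mul, Finset.sum_mul] at h2
  have hterm : ∀ k ∈ Ico (2 ^ i) L, (n.choose k : ℝ) * ((trk k : ℝ) * u ^ (k - 1)) * XL u L (n - k) *
      (z ^ n / (n.factorial : ℝ)) ≤
      if k ≤ n then M * (XL u L (n - k) * z ^ (n - k) / ((n - k).factorial : ℝ)) else 0 := by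
    intro k hk
    split_ifs with hkn
    · have e1 : (n.choose k : ℝ) * (k.factorial : ℝ) * ((n - k).factorial : ℝ) = (n.factorial : ℝ) := by
        exact_mod_cast Nat.choose_mul_factorial_mul_factorial hkn
      have e2 : z ^ n = z ^ k * z ^ (n - k) := by
        rw [← pow_add]; congr 1; omega
      have hk0 : (k.factorial : ℝ) ≠ 0 := by exact_mod_cast k.factorial_ne_zero
      have hnk0 : ((n - k).factorial : ℝ) ≠ 0 := by exact_mod_cast (n - k).factorial_ne_zero
      have hn0 : (n.factorial : ℝ) ≠ 0 := by exact_mod_cast n.factorial_ne_zero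
      have e3 : (n.choose k : ℝ) * ((trk k : ℝ) * u ^ (k - 1)) * XL u L (n - k) *
          (z ^ n / (n.factorial : ℝ)) =
          cc u z k * (XL u L (n - k) * z ^ (n - k) / ((n - k).factorial : ℝ)) := by
        unfold cc
        rw [e2]
        field_simp
        rw [← e1]
        ring
      rw [e3]
      apply mul_le_mul_of_nonneg_right (hM k hk)
      have := XL_nonneg u L (n - k) hu.le
      positivity
    · have : n.choose k = 0 := Nat.choose_eq_zero_of_lt (by omega)
      rw [this]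
      simp
  have h3 := Finset.sum_le_sum hterm
  have h4 : ∑ k ∈ Ico (2 ^ i) L, (if k ≤ n then M * (XL u L (n - k) * z ^ (n - k) / ((n - k).factorial : ℝ))
      else 0) ≤ M * ∑ m ∈ range (n + 1), XL u L m * z ^ m / (m.factorial : ℝ) := by
    rw [← Finset.sum_filter, ← Finset.mul_sum]
    apply mul_le_mul_of_nonneg_left _ hM0
    have hinj : ∀ a ∈ (Ico (2 ^ i) L).filter (fun k => k ≤ n), ∀ b ∈ (Ico (2 ^ i) L).filter (fun k => k ≤ n),
        n - a = n - b → a = b := by
      intro a ha b hb hab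
      simp only [Finset.mem_filter] at ha hb
      omega
    rw [← Finset.sum_image (f := fun m => XL u L m * z ^ m / (m.factorial : ℝ)) hinj]
    apply Finset.sum_le_sum_of_subset_of_nonneg
    · intro m hm
      simp only [Finset.mem_image, Finset.mem_filter, Finset.mem_range] at hm ⊢
      obtain ⟨a, _, rfl⟩ := hm
      omega
    · intro m _ _
      have := XL_nonneg u L m hu.le
      positivity
  have h5 := hTD u z L n hu.le hz.le
  have h6 := expo_le u z L n L hu.le hz.le (le_refl _)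
  have h7 := Real.exp_le_exp.mpr h6
  have h8 := mul_le_mul_of_nonneg_left (h5.trans h7) hM0
  have h9 : XL u L n * z ^ n / (n.factorial : ℝ) = XL u L n * (z ^ n / (n.factorial : ℝ)) := by ring
  have h10 : XL u (2 ^ i) n * z ^ n / (n.factorial : ℝ) = XL u (2 ^ i) n * (z ^ n / (n.factorial : ℝ)) := by
    ring
  rw [h9, h10]
  linarith

theorem t : Pool.Agent.Helper96.AW.S_TF := by
  intro hTD hTE u z n I M hu hz hnI hM
  have hM' : ∀ i < I, ∀ k ∈ Ico (2 ^ i) (2 ^ (i + 1)), cc u z k ≤ M i := hM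
  set V := ∑ k ∈ Icc 1 n, (Nc k 0 : ℝ) * u ^ k * z ^ k / (k.factorial : ℝ) with hV
  have hind : ∀ J ≤ I, XL u (2 ^ J) n * z ^ n / (n.factorial : ℝ) ≤
      Real.exp V * (1 + ∑ i ∈ range J, M i * Real.exp (∑ k ∈ Ico 1 (2 ^ (i + 1)), cc u z k)) := by
    intro J
    induction J with
    | zero =>
      intro _
      simp only [pow_zero, Finset.range_zero, Finset.sum_empty, add_zero, mul_one]
      have h5 := hTD u z 1 n hu.le hz.le
      have h6 := expo_le u z 1 n 1 hu.le hz.le (le_refl _)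
      simp only [Finset.Ico_self, Finset.sum_empty, zero_add] at h6
      have h7 := Real.exp_le_exp.mpr h6
      have h8 : XL u 1 n * z ^ n / (n.factorial : ℝ) ≤
          ∑ m ∈ range (n + 1), XL u 1 m * z ^ m / (m.factorial : ℝ) := by
        apply Finset.single_le_sum (f := fun m => XL u 1 m * z ^ m / (m.factorial : ℝ))
        · intro m _
          have := XL_nonneg u 1 m hu.le
          positivity
        · exact Finset.self_mem_range_succ n
      exact h8.trans (h5.trans h7)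
    | succ J ih =>
      intro hJ
      have h1 := ih (by omega)
      have h2 := step hTD hTE u z n J (M J) hu hz (hM' J (by omega))
      rw [Finset.sum_range_succ]
      rw [← hV, Real.exp_add] at h2
      have h3 : Real.exp V * (1 + (∑ i ∈ range J, M i * Real.exp (∑ k ∈ Ico 1 (2 ^ (i + 1)), cc u z k) +
          M J * Real.exp (∑ k ∈ Ico 1 (2 ^ (J + 1)), cc u z k))) =
          Real.exp V * (1 + ∑ i ∈ range J, M i * Real.exp (∑ k ∈ Ico 1 (2 ^ (i + 1)), cc u z k)) +
          M J * (Real.exp (∑ k ∈ Ico 1 (2 ^ (J + 1)), cc u z k) * Real.exp V) := by ring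
      rw [h3]
      linarith
  have hfin := hind I (le_refl _)
  rw [XL_big u n (2 ^ I) hnI] at hfin
  exact hfin

end Pool.Agent.Helper24.AW.TF
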